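import Mathlib

/-!
# MP_26d357_co: the degree-`(k+t)` vertices of a `k`-tree need exactly `t + 1` colours
-/

namespace Pool.Agent.Results.MP_26d357_co.Exact

open Finset

/-- `G` is a `k`-tree whose vertices `0, 1, …, n - 1` are numbered in construction order: the first
`k + 1` vertices form a clique, and the earlier neighbours of each later vertex form a `k`-clique. -/
def IsKTree (k : ℕ) {n : ℕ} (G : SimpleGraph (Fin n)) : Prop :=
  k + 1 ≤ n ∧ (∀ a b : Fin n, a.val ≤ k → b.val ≤ k → a ≠ b → G.Adj a b) ∧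
    ∀ b : Fin n, k < b.val → ∃ K : Finset (Fin n), G.IsNClique k K ∧ ∀ a, a ∈ K ↔ a < b ∧ G.Adj a b

variable {k n : ℕ} {G : SimpleGraph (Fin n)}

theorem card_lt (m : ℕ) (h : m ≤ n) : (univ.filter fun u : Fin n => u.val < m).card = m := by
  rw [Fin.card_filter_val_lt, min_eq_right h]

theorem omega_le (h : IsKTree k G) (C : Finset (Fin n)) (hC : G.IsClique C) : C.card ≤ k + 1 := by
  rcases C.eq_empty_or_nonempty with rfl | hne
  · simp
  obtain ⟨b, hb, hmax⟩ := exists_max_image C id hne
  by_cases hk : b.val ≤ k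
  · rw [← card_lt (k + 1) h.1]
    refine card_le_card fun a ha => mem_filter.2 ⟨mem_univ _, ?_⟩
    have : a.val ≤ b.val := hmax a ha
    omega
  · obtain ⟨K, hK, hm⟩ := h.2.2 b (not_le.1 hk)
    have : C.erase b ⊆ K := fun a ha => (hm a).2
      ⟨lt_of_le_of_ne (hmax a (mem_of_mem_erase ha)) (ne_of_mem_erase ha),
        hC (mem_of_mem_erase ha) hb (ne_of_mem_erase ha)⟩
    have h2 := card_le_card this
    rw [card_erase_of_mem hb, hK.card_eq] at h2
    omega

open Classical in
noncomputable def dg (G : SimpleGraph (Fin n)) (m : ℕ) (v : Fin n) : ℕ :=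
  (univ.filter fun u : Fin n => u.val < m ∧ G.Adj v u).card

theorem dg_mono (m : ℕ) (v : Fin n) : dg G m v ≤ dg G (m + 1) v := by
  classical
  refine card_le_card fun u hu => ?_
  simp only [mem_filter, mem_univ, true_and] at hu ⊢
  exact ⟨by omega, hu.2⟩

theorem dg_lt (w v : Fin n) (h : G.Adj v w) : dg G w v < dg G (w + 1) v := by
  classical
  refine card_lt_card ⟨fun u hu => ?_, fun hs => ?_⟩
  · simp only [mem_filter, mem_univ, true_and] at hu ⊢
    exact ⟨by omega, hu.2⟩
  · have := @hs w (by simp [h])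
    simp at this

theorem dg_min (h : IsKTree k G) (m : ℕ) (hm : k + 1 ≤ m) (v : Fin n) (hv : v.val < m) :
    k ≤ dg G m v := by
  classical
  by_cases hk : v.val ≤ k
  · have : (univ.filter fun u : Fin n => u.val < k + 1).erase v ⊆
        univ.filter fun u : Fin n => u.val < m ∧ G.Adj v u := by
      intro u hu
      simp only [mem_erase, mem_filter, mem_univ, true_and] at hu ⊢
      exact ⟨by omega, h.2.1 v u hk (by omega) hu.1.symm⟩
    have h2 := card_le_card this
    rw [card_erase_of_mem (by simp; omega), card_lt _ h.1] at h2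
    exact h2
  · obtain ⟨K, hK, hKm⟩ := h.2.2 v (not_le.1 hk)
    rw [← hK.card_eq]
    refine card_le_card fun u hu => ?_
    have := (hKm u).1 hu
    have h3 : u.val < v.val := this.1
    simp only [mem_filter, mem_univ, true_and]
    exact ⟨by omega, this.2.symm⟩

theorem univ_adj (m : ℕ) (hm : m ≤ n) (v : Fin n) (hv : v.val < m) (hd : m - 1 ≤ dg G m v)
    (u : Fin n) (hu : u.val < m) (huv : u ≠ v) : G.Adj v u := by
  classical
  have hs : (univ.filter fun u : Fin n => u.val < m ∧ G.Adj v u) ⊆
      (univ.filter fun u : Fin n => u.val < m).erase v := by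
    intro x hx
    simp only [mem_erase, mem_filter, mem_univ, true_and] at hx ⊢
    exact ⟨hx.2.ne.symm, hx.1⟩
  have he := eq_of_subset_of_card_le hs (by
    rw [card_erase_of_mem (by simpa using hv), card_lt m hm]
    exact hd)
  have : u ∈ univ.filter fun u : Fin n => u.val < m ∧ G.Adj v u := by
    rw [he]
    simp [hu, huv]
  exact (mem_filter.1 this).2.2

theorem main (h : IsKTree k G) (m : ℕ) : m ≤ n → ∀ (C : Finset (Fin n)) (j : ℕ), G.IsClique C →
    (∀ v ∈ C, v.val < m ∧ dg G m v < k + j) → k + 1 + j ≤ m → C.card ≤ j := by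
  classical
  induction m with
  | zero => intro _ C j _ _ hj; omega
  | succ m ih =>
    intro hm C j hC hv hj
    rcases j with _ | j
    · rw [Nat.le_zero, card_eq_zero, eq_empty_iff_forall_notMem]
      intro v hvC
      have := dg_min h (m + 1) (by omega) v (hv v hvC).1
      have := (hv v hvC).2
      omega
    let w : Fin n := ⟨m, hm⟩
    by_cases hw : w ∈ C
    · have := ih (by omega) (C.erase w) j (hC.subset (coe_subset.2 (erase_subset _ _)))
        (fun v hvC => by
          have h1 := hv v (mem_of_mem_erase hvC)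
          have h2 : v.val ≠ m := fun e => ne_of_mem_erase hvC (Fin.ext e)
          have h3 : dg G m v < dg G (m + 1) v :=
            dg_lt w v (hC (mem_of_mem_erase hvC) hw (ne_of_mem_erase hvC))
          omega) (by omega)
      rw [card_erase_of_mem hw] at this
      omega
    have hlt : ∀ v ∈ C, v.val < m := fun v hvC => by
      have h1 := (hv v hvC).1
      have h2 : v.val ≠ m := fun e => hw (by rwa [← (Fin.ext e : v = w)])
      omega
    by_cases hjm : k + 1 + (j + 1) ≤ m
    · exact ih (by omega) C (j + 1) hC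
        (fun v hvC => ⟨hlt v hvC, lt_of_le_of_lt (dg_mono m v) (hv v hvC).2⟩) hjm
    have h1 := ih (by omega) (C.filter fun v => dg G m v < k + j) j
      (hC.subset (coe_subset.2 (filter_subset _ _)))
      (fun v hvC => ⟨hlt v (mem_filter.1 hvC).1, (mem_filter.1 hvC).2⟩) (by omega)
    have h2 : (C.filter fun v => ¬ dg G m v < k + j).card ≤ 1 := by
      rw [card_le_one]
      intro a ha b hb
      by_contra hab
      obtain ⟨K, hK, hKm⟩ := h.2.2 w (show k < m by omega)
      have key : ∀ x ∈ C.filter fun v => ¬ dg G m v < k + j,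
          x ∉ K ∧ ∀ u : Fin n, u.val < m → u ≠ x → G.Adj x u := by
        intro x hx
        obtain ⟨hxC, hx⟩ := mem_filter.1 hx
        refine ⟨fun hxK => ?_, univ_adj m (by omega) x (hlt x hxC) (by omega)⟩
        have h3 : dg G m x < dg G (m + 1) x := dg_lt w x ((hKm x).1 hxK).2
        have := (hv x hxC).2
        omega
      have hKb := hK.insert (a := b) fun u hu => (key b hb).2 u ((hKm u).1 hu).1
        fun e => (key b hb).1 (e ▸ hu)
      have hKa := hKb.insert (a := a) fun u hu => by
        rcases mem_insert.1 hu with rfl | hu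
        · exact hC (mem_filter.1 ha).1 (mem_filter.1 hb).1 hab
        · exact (key a ha).2 u ((hKm u).1 hu).1 fun e => (key a ha).1 (e ▸ hu)
      have := omega_le h _ hKa.isClique
      rw [hKa.card_eq] at this
      omega
    have := card_filter_add_card_filter_not (s := C) fun v => dg G m v < k + j
    omega

theorem dg_eq (v : Fin n) : dg G n v = (G.neighborSet v).ncard := by
  classical
  rw [dg, ← Set.ncard_coe_finset]
  congr 1
  ext u
  simp

theorem greedy (h : IsKTree k G) (S : Set (Fin n)) (t : ℕ)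
    (hS : ∀ C : Finset (Fin n), G.IsClique C → (∀ v ∈ C, v ∈ S) → C.card ≤ t + 1) (m : ℕ) :
    ∃ c : Fin n → Fin (t + 1), ∀ a ∈ S, ∀ b ∈ S, a.val < m → b.val < m → G.Adj a b → c a ≠ c b := by
  classical
  induction m with
  | zero => exact ⟨fun _ => 0, fun a _ b _ ha => absurd ha (Nat.not_lt_zero _)⟩
  | succ m ih =>
    obtain ⟨c, hc⟩ := ih
    by_cases hw : ∃ w ∈ S, w.val = m
    swap
    · refine ⟨c, fun a ha b hb h1 h2 => hc a ha b hb ?_ ?_⟩
      · exact lt_of_le_of_ne (Nat.le_of_lt_succ h1) fun e => hw ⟨a, ha, e⟩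
      · exact lt_of_le_of_ne (Nat.le_of_lt_succ h2) fun e => hw ⟨b, hb, e⟩
    obtain ⟨w, hw, rfl⟩ := hw
    let N := univ.filter fun a => a ∈ S ∧ a < w ∧ G.Adj a w
    have hN : ∀ a, a ∈ N ↔ a ∈ S ∧ a < w ∧ G.Adj a w := fun a => by simp [N]
    have hcl : G.IsClique N := by
      intro a ha b hb hab
      have ha := (hN a).1 ha
      have hb := (hN b).1 hb
      by_cases hk : w.val ≤ k
      · exact h.2.1 a b ((Fin.le_def.1 ha.2.1.le).trans hk) ((Fin.le_def.1 hb.2.1.le).trans hk) hab
      · obtain ⟨K, hK, hKm⟩ := h.2.2 w (not_le.1 hk)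
        exact hK.isClique ((hKm a).2 ha.2) ((hKm b).2 hb.2) hab
    have hcard := hS (insert w N) (by
      rw [coe_insert]
      exact hcl.insert fun a ha _ => ((hN a).1 ha).2.2.symm) (fun v hv => by
      rcases mem_insert.1 hv with rfl | hv
      · exact hw
      · exact ((hN v).1 hv).1)
    rw [card_insert_of_notMem (fun hh => lt_irrefl _ ((hN w).1 hh).2.1)] at hcard
    obtain ⟨x, -, hx⟩ := exists_mem_notMem_of_card_lt_card (s := N.image c) (t := univ)
      (lt_of_le_of_lt card_image_le (by simpa using hcard))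
    have key : ∀ a ∈ S, a.val < w.val + 1 → G.Adj a w → c a ≠ x := fun a ha h1 h2 e =>
      hx (mem_image.2 ⟨a, (hN a).2 ⟨ha, lt_of_le_of_ne (Nat.le_of_lt_succ h1) h2.ne, h2⟩, e⟩)
    refine ⟨Function.update c w x, fun a ha b hb h1 h2 hab => ?_⟩
    by_cases ea : a = w
    · subst ea
      rw [Function.update_self, Function.update_of_ne hab.ne.symm]
      exact (key b hb h2 hab.symm).symm
    by_cases eb : b = w
    · subst eb
      rw [Function.update_self, Function.update_of_ne hab.ne]
      exact key a ha h1 hab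
    rw [Function.update_of_ne ea, Function.update_of_ne eb]
    exact hc a ha b hb (lt_of_le_of_ne (Nat.le_of_lt_succ h1) fun e => ea (Fin.ext e))
      (lt_of_le_of_ne (Nat.le_of_lt_succ h2) fun e => eb (Fin.ext e)) hab

/-- The extremal example. -/
def ex (t : ℕ) : SimpleGraph (Fin (2 * t + 3)) where
  Adj a b := a ≠ b ∧ (a.val ≤ t + 1 ∨ b.val ≤ t + 1) ∧ a.val ≠ b.val + (t + 2) ∧
    b.val ≠ a.val + (t + 2)
  symm := ⟨fun _ _ h => ⟨h.1.symm, h.2.1.symm, h.2.2.2, h.2.2.1⟩⟩
  loopless := ⟨fun _ h => h.1 rfl⟩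

theorem ex_tree (t : ℕ) : IsKTree (t + 1) (ex t) := by
  refine ⟨by omega, fun a b ha hb hab => ⟨hab, Or.inl ha, by omega, by omega⟩, fun b hb => ?_⟩
  have hb' := b.2
  let x : Fin (2 * t + 3) := ⟨b.val - (t + 2), by omega⟩
  refine ⟨(univ.filter fun u : Fin (2 * t + 3) => u.val < t + 2).erase x, ⟨?_, ?_⟩, fun a => ?_⟩
  · intro a ha c hc hac
    simp only [coe_erase, coe_filter, mem_univ, true_and, Set.mem_diff, Set.mem_setOf_eq] at ha hc
    exact ⟨hac, Or.inl (by omega), by omega, by omega⟩
  · rw [card_erase_of_mem (by simp [x]; omega), card_lt _ (by omega)]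
    rfl
  · simp only [mem_erase, mem_filter, mem_univ, true_and, ex, x, Ne, Fin.ext_iff, Fin.lt_def]
    omega

theorem ex_deg (t : ℕ) (v : Fin (2 * t + 3)) (hv : v.val ≤ t) :
    ((ex t).neighborSet v).ncard = t + 1 + t := by
  let x : Fin (2 * t + 3) := ⟨v.val + (t + 2), by omega⟩
  have : (ex t).neighborSet v = ↑((univ.erase v).erase x) := by
    ext u
    simp only [SimpleGraph.mem_neighborSet, ex, mem_coe, mem_erase, mem_univ, and_true, x, Ne,
      Fin.ext_iff]
    omega
  rw [this, Set.ncard_coe_finset, card_erase_of_mem (by simp [x, Fin.ext_iff]),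
    card_erase_of_mem (mem_univ _)]
  simp only [card_univ, Fintype.card_fin]
  omega

/-- `g(t) = t + 1`: over all `k ≥ 1` and all `k`-trees of order at least `k + t + 2`, the largest
chromatic number of the subgraph induced by the vertices of degree `k + t` is `t + 1`. -/
theorem result (t : ℕ) :
    IsGreatest {c : ℕ∞ | ∃ (k n : ℕ) (G : SimpleGraph (Fin n)), 1 ≤ k ∧ k + t + 2 ≤ n ∧
      IsKTree k G ∧ c = (G.induce {v | (G.neighborSet v).ncard = k + t}).chromaticNumber}
      ((t + 1 : ℕ) : ℕ∞) := by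
  have up : ∀ (k n : ℕ) (G : SimpleGraph (Fin n)), k + t + 2 ≤ n → IsKTree k G →
      (G.induce {v | (G.neighborSet v).ncard = k + t}).chromaticNumber ≤ ((t + 1 : ℕ) : ℕ∞) := by
    intro k n G hn h
    obtain ⟨c, hc⟩ := greedy h {v | (G.neighborSet v).ncard = k + t} t (fun C hC hS =>
      main h n le_rfl C (t + 1) hC (fun v hv => ⟨v.2, by
        rw [dg_eq, (hS v hv : _ = _)]
        omega⟩) (by omega)) n
    refine SimpleGraph.Colorable.chromaticNumber_le ⟨SimpleGraph.Coloring.mk (fun v => c v.1) ?_⟩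
    intro a b hab
    exact hc a.1 a.2 b.1 b.2 a.1.2 b.1.2 hab
  refine ⟨⟨t + 1, 2 * t + 3, ex t, by omega, by omega, ex_tree t,
    le_antisymm ?_ (up _ _ _ (by omega) (ex_tree t))⟩, ?_⟩
  · refine SimpleGraph.le_chromaticNumber_of_pairwise_adj (ι := Fin (t + 1)) (by simp)
      (fun i => ⟨⟨i.val, by omega⟩, ex_deg t _ (Nat.le_of_lt_succ i.2)⟩) fun i j hij => ?_
    have h1 := i.2
    have h2 := j.2
    have h3 : i.val ≠ j.val := fun e => hij (Fin.ext e)
    simp only [SimpleGraph.comap_adj, Function.Embedding.subtype_apply, ex, Ne, Fin.ext_iff]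
    omega
  · rintro c ⟨k, n, G, -, hn, h, rfl⟩
    exact up k n G hn h

end Pool.Agent.Results.MP_26d357_co.Exact
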